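import Mathlib
import Pool.Agent.H27.STSMain

set_option autoImplicit false

/-!
# Every finite group of order `n` acts faithfully on a Steiner triple system of order at most `144 n^2`
-/

namespace Pool.Agent.Results.MP_828a2e_co.QuadraticOrder

universe u

/-- A Steiner triple system with the point set `V`: a family of subsets of `V` with exactly three
elements such that any two distinct points lie in exactly one of them. -/
structure SteinerTripleSystem (V : Type) where
  /-- the triples -/
  triples : Set (Set V)
  /-- every triple has exactly three points -/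
  three : ∀ b ∈ triples, b.ncard = 3
  /-- two distinct points lie in a triple -/
  exists_triple : ∀ x y : V, x ≠ y → ∃ b ∈ triples, x ∈ b ∧ y ∈ b
  /-- two distinct points lie in at most one triple -/
  unique_triple : ∀ x y : V, x ≠ y → ∀ b ∈ triples, ∀ c ∈ triples,
    x ∈ b → y ∈ b → x ∈ c → y ∈ c → b = c

/-- The permutation `σ` of the points is an automorphism of `X`: it maps the family of triples onto
itself. -/
def IsAutomorphism {V : Type} (X : SteinerTripleSystem V) (σ : Equiv.Perm V) : Prop :=
  (fun b : Set V => σ '' b) '' X.triples = X.triples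

/-- The group `G` acts faithfully on `X`: it is isomorphic to a subgroup `K` of the group of all
permutations of the points which consists of automorphisms of `X`. -/
def ActsFaithfully (G : Type u) [Group G] {V : Type} (X : SteinerTripleSystem V) : Prop :=
  ∃ K : Subgroup (Equiv.Perm V), (∀ σ ∈ K, IsAutomorphism X σ) ∧ Nonempty (G ≃* K)

open Pool.Agent.H27 in
private theorem exists_sts (G : Type) [Group G] [Fintype G] :
    ∃ (V : Type) (_ : Fintype V) (_ : DecidableEq V) (B : Finset (Finset V)),
        (∀ b ∈ B, b.card = 3) ∧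
        (∀ x y : V, x ≠ y → ∃! b, b ∈ B ∧ x ∈ b ∧ y ∈ b) ∧
        3 ≤ Fintype.card V ∧
        Fintype.card V ≤ 144 * (Fintype.card G) ^ 2 ∧
        ∃ φ : G →* Equiv.Perm V, Function.Injective φ ∧
          ∀ g : G, ∀ b ∈ B, b.image (⇑(φ g)) ∈ B := by
  classical
  let H := G × Multiplicative (ZMod 3)
  have hH : Fintype.card H = 3 * Fintype.card G := by
    simp only [H, Fintype.card_prod, Fintype.card_multiplicative, ZMod.card]
    ring
  let k := Nat.log 2 (Fintype.card H) + 1
  let K := Fin k → ZMod 2
  have hKcard : Fintype.card K = 2 ^ k := by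
    simp [K, ZMod.card]
  have hK1 : Fintype.card H ≤ Fintype.card K := by
    rw [hKcard]
    exact (Nat.lt_pow_succ_log_self (by norm_num) _).le
  have hGpos : 0 < Fintype.card G := Fintype.card_pos
  have hK2 : Fintype.card K ≤ 2 * Fintype.card H := by
    rw [hKcard, pow_succ]
    have := Nat.pow_log_le_self 2 (x := Fintype.card H) (by omega)
    omega
  obtain ⟨ι⟩ := Function.Embedding.nonempty_of_card_le hK1
  have hne : Nonempty H := ⟨1⟩
  let D : Dat H K :=
    { ω := (1, Multiplicative.ofAdd 1)
      hω := by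
        refine Prod.ext ?_ ?_
        · show (1 : G) * 1 * 1 = 1
          simp
        · show Multiplicative.ofAdd (1 : ZMod 3) * Multiplicative.ofAdd 1 *
            Multiplicative.ofAdd 1 = 1
          decide
      hω1 := by
        intro e
        have h2 : Multiplicative.ofAdd (1 : ZMod 3) = 1 := congrArg Prod.snd e
        revert h2
        decide
      hK := by
        intro x
        funext i
        have h2 : ∀ a : ZMod 2, a + a = 0 := by decide
        exact h2 (x i)
      ι := ι
      κ := Function.invFun ι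
      hι := Function.leftInverse_invFun ι.injective
      q := fun h => (Fintype.equivFin H h : ℕ)
      hq := fun a b e => (Fintype.equivFin H).injective (Fin.ext e)
      r := fun h => (Fintype.equivFin (JJ K) h : ℕ)
      hr := fun a b e => (Fintype.equivFin (JJ K)).injective (Fin.ext e) }
  have h3 : 3 ∣ Fintype.card H := ⟨_, hH⟩
  obtain ⟨m, hm⟩ := exists_squag_of_card D.FF (D.card_FF h3)
  have hsq := D.op_squag m hm
  refine ⟨D.VV, inferInstance, fun a b => Classical.propDecidable (a = b), blocks (D.op m),
    blocks_card hsq, blocks_unique hsq, ?_, ?_, D.rep.comp (MonoidHom.inl G _), ?_, ?_⟩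
  · have h4 := D.card_FF h3
    have h5 : Fintype.card D.FF ≤ Fintype.card D.VV := by
      rw [Fintype.card_sum]
      omega
    omega
  · have h4 := D.card_VV_le
    have h5 : 8 * (Fintype.card K * Fintype.card H) ≤ 144 * (Fintype.card G) ^ 2 := by
      calc 8 * (Fintype.card K * Fintype.card H)
          ≤ 8 * ((2 * Fintype.card H) * Fintype.card H) := by gcongr
        _ = 144 * (Fintype.card G) ^ 2 := by rw [hH]; ring
    omega
  · intro a b e
    have h4 := D.rep_injective e
    exact congrArg Prod.fst h4
  · intro g b hb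
    exact blocks_image _ (fun x y => D.op_act m _ x y) b hb

/-- the form with sets -/
private theorem exists_system0 (G : Type) [Group G] [Finite G] :
    ∃ (V : Type) (X : SteinerTripleSystem V), Finite V ∧ ActsFaithfully G X ∧ 3 ≤ Nat.card V ∧
      Nat.card V ≤ 144 * Nat.card G ^ 2 := by
  classical
  have hfin : Fintype G := Fintype.ofFinite G
  obtain ⟨V, hV, hd, B, h3, h2, hlo, hup, φ, hφ, hB⟩ := exists_sts G
  let X : SteinerTripleSystem V :=
    { triples := {b | ∃ s ∈ B, b = (s : Set V)}
      three := by
        rintro b ⟨s, hs, rfl⟩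
        rw [Set.ncard_coe_finset]
        exact h3 s hs
      exists_triple := by
        intro x y hxy
        obtain ⟨b, ⟨hb, hx, hy⟩, -⟩ := h2 x y hxy
        exact ⟨b, ⟨b, hb, rfl⟩, hx, hy⟩
      unique_triple := by
        rintro x y hxy b ⟨s, hs, rfl⟩ c ⟨t, ht, rfl⟩ hxs hys hxt hyt
        obtain ⟨b, -, hu⟩ := h2 x y hxy
        have e1 := hu s ⟨hs, Finset.mem_coe.mp hxs, Finset.mem_coe.mp hys⟩
        have e2 := hu t ⟨ht, Finset.mem_coe.mp hxt, Finset.mem_coe.mp hyt⟩
        rw [e1, e2] }
  have himg : ∀ g, ∀ b ∈ X.triples, (φ g) '' b ∈ X.triples := by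
    rintro g b ⟨s, hs, rfl⟩
    exact ⟨s.image (φ g), hB g s hs, by rw [Finset.coe_image]⟩
  refine ⟨V, X, inferInstance, ⟨φ.range, ?_, ⟨MonoidHom.ofInjective hφ⟩⟩, ?_, ?_⟩
  · rintro σ ⟨g, rfl⟩
    apply Set.Subset.antisymm
    · rintro _ ⟨b, hb, rfl⟩
      exact himg g b hb
    · intro b hb
      refine ⟨(φ g⁻¹) '' b, himg g⁻¹ b hb, ?_⟩
      show (φ g) '' ((φ g⁻¹) '' b) = b
      rw [← Set.image_comp]
      have : (⇑(φ g) ∘ ⇑(φ g⁻¹)) = id := by
        funext x
        show (φ g) ((φ g⁻¹) x) = x
        rw [← Equiv.Perm.mul_apply, ← map_mul, mul_inv_cancel, map_one]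
        rfl
      rw [this, Set.image_id]
  · rw [Nat.card_eq_fintype_card]
    exact hlo
  · rw [Nat.card_eq_fintype_card, Nat.card_eq_fintype_card]
    exact hup

/-- groups of any universe -/
private theorem exists_system (G : Type u) [Group G] [Finite G] :
    ∃ (V : Type) (X : SteinerTripleSystem V), Finite V ∧ ActsFaithfully G X ∧ 3 ≤ Nat.card V ∧
      Nat.card V ≤ 144 * Nat.card G ^ 2 := by
  have hfin : Finite (Shrink.{0} G) := Finite.of_equiv G (equivShrink.{0} G)
  obtain ⟨V, X, hV, ⟨K, hK, ⟨f⟩⟩, hlo, hup⟩ := exists_system0 (Shrink.{0} G)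
  refine ⟨V, X, hV, ⟨K, hK, ⟨(Shrink.mulEquiv.{0} (α := G)).symm.trans f⟩⟩, hlo, ?_⟩
  rwa [Nat.card_congr (equivShrink.{0} G).symm] at hup

/-- **Every finite group of order `n` acts faithfully on a Steiner triple system of order at most
`144 n^2`** (and at least `3`), and on one of order at most `n^10`. -/
theorem result (G : Type u) [Group G] [Finite G] :
    (∃ (V : Type) (X : SteinerTripleSystem V), Finite V ∧ ActsFaithfully G X ∧ 3 ≤ Nat.card V ∧
      Nat.card V ≤ 144 * Nat.card G ^ 2) ∧
    (∃ (V : Type) (X : SteinerTripleSystem V), Finite V ∧ ActsFaithfully G X ∧ 1 ≤ Nat.card V ∧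
      Nat.card V ≤ Nat.card G ^ 10) := by
  refine ⟨exists_system G, ?_⟩
  by_cases hG : 2 ≤ Nat.card G
  · obtain ⟨V, X, hV, hX, hlo, hup⟩ := exists_system G
    refine ⟨V, X, hV, hX, by omega, hup.trans ?_⟩
    have : 144 ≤ (Nat.card G) ^ 8 := by
      calc 144 ≤ 2 ^ 8 := by norm_num
        _ ≤ (Nat.card G) ^ 8 := Nat.pow_le_pow_left hG 8
    calc 144 * (Nat.card G) ^ 2 ≤ (Nat.card G) ^ 8 * (Nat.card G) ^ 2 := by gcongr
      _ = (Nat.card G) ^ 10 := by ring
  · have hpos : 0 < Nat.card G := Nat.card_pos
    have h1 : Nat.card G = 1 := by omega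
    have hs : Subsingleton G := (Nat.card_eq_one_iff_unique.mp h1).1
    let X : SteinerTripleSystem Unit :=
      { triples := ∅
        three := fun b hb => absurd hb (Set.notMem_empty b)
        exists_triple := fun x y h => absurd (Subsingleton.elim x y) h
        unique_triple := fun x y h => absurd (Subsingleton.elim x y) h }
    refine ⟨Unit, X, inferInstance, ⟨⊥, ?_, ?_⟩, by simp, by simp⟩
    · intro σ _
      show (fun b : Set Unit => σ '' b) '' (∅ : Set (Set Unit)) = ∅
      exact Set.image_empty _
    · letI : Unique G := ⟨⟨1⟩, fun a => Subsingleton.elim a 1⟩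
      exact ⟨MulEquiv.ofUnique⟩

end Pool.Agent.Results.MP_828a2e_co.QuadraticOrder
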